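import Mathlib
import Pool.Agent.Helper3.Conc2
import Pool.Agent.Helper3.Jord

/-!
# Topological invariable generation of compact groups

All compact Hausdorff groups, finite or infinite; and the closure properties of the class.
-/

set_option autoImplicit false

namespace Pool.Agent.Results.MP_f8d790_al.AllCompactGroups

open Topology Set

/-- Topological invariable generation: for every choice `c` of one element in each conjugacy class, the elements `c C` generate a dense subgroup. -/
def TIG (G : Type) [Group G] [TopologicalSpace G] : Prop :=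
  ∀ c : ConjClasses G → G, (∀ C, ConjClasses.mk (c C) = C) → Dense ((Subgroup.closure (Set.range c) : Subgroup G) : Set G)

/-- No proper closed subgroup meets every conjugacy class. -/
def NoProperClosed (G : Type) [Group G] [TopologicalSpace G] : Prop :=
  ∀ H : Subgroup G, IsClosed (H : Set G) → (∀ C : ConjClasses G, ∃ h ∈ H, ConjClasses.mk h = C) → H = ⊤

/-- (Connected abelian)-by-profinite. -/
def ConnAbByProf (G : Type) [Group G] [TopologicalSpace G] : Prop :=
  ∃ N : Subgroup G, N.Normal ∧ IsClosed (N : Set G) ∧ IsConnected (N : Set G) ∧ (∀ a ∈ N, ∀ b ∈ N, a * b = b * a) ∧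
    CompactSpace (G ⧸ N) ∧ T2Space (G ⧸ N) ∧ TotallyDisconnectedSpace (G ⧸ N)

section main

variable {G : Type} [Group G] [TopologicalSpace G]

omit [TopologicalSpace G] in
private lemma meets_iff (H : Subgroup G) :
    (∀ C : ConjClasses G, ∃ h ∈ H, ConjClasses.mk h = C) ↔ ∀ g : G, ∃ k, k * g * k⁻¹ ∈ H := by
  constructor
  · intro h g
    obtain ⟨x, hx, hC⟩ := h (ConjClasses.mk g)
    have hc : IsConj g x := (ConjClasses.mk_eq_mk_iff_isConj.mp hC).symm
    obtain ⟨k, hk⟩ := isConj_iff.mp hc
    exact ⟨k, by rw [hk]; exact hx⟩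
  · intro h C
    obtain ⟨g, rfl⟩ := ConjClasses.mk_surjective C
    obtain ⟨k, hk⟩ := h g
    exact ⟨_, hk, ConjClasses.mk_eq_mk_iff_isConj.mpr (isConj_iff.mpr ⟨k, rfl⟩).symm⟩

variable [IsTopologicalGroup G]

private lemma tig_iff : TIG G ↔ NoProperClosed G := by
  constructor
  · intro h H hH hm
    choose c hc hcC using hm
    have hd := h c hcC
    have hle : Subgroup.closure (Set.range c) ≤ H := by
      rw [Subgroup.closure_le]
      rintro _ ⟨C, rfl⟩
      exact hc C
    rw [eq_top_iff]
    intro g _
    have h1 : closure ((Subgroup.closure (Set.range c) : Subgroup G) : Set G) ⊆ (H : Set G) :=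
      closure_minimal hle hH
    exact h1 (hd g)
  · intro h c hc
    have h1 := h (Subgroup.closure (Set.range c)).topologicalClosure (Subgroup.isClosed_topologicalClosure _)
      (fun C => ⟨c C, Subgroup.le_topologicalClosure _ (Subgroup.subset_closure ⟨C, rfl⟩), hc C⟩)
    intro g
    have h2 : g ∈ (Subgroup.closure (Set.range c)).topologicalClosure := by rw [h1]; trivial
    exact h2

variable [CompactSpace G] [T2Space G]

private lemma noProper_iff : NoProperClosed G ↔ ∀ a ∈ connectedComponent (1 : G), ∀ b ∈ connectedComponent (1 : G), a * b = b * a := by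
  constructor
  · intro h a ha b hb
    refine Pool.Agent.Helper3.Conc.comm_of_TIG (fun H hH hm => h H hH ((meets_iff H).mpr hm)) a b ha hb
  · intro h H hH hm
    have hN : ((Subgroup.connectedComponentOfOne G : Subgroup G) : Set G) = connectedComponent (1 : G) := rfl
    refine Pool.Agent.Helper3.Jord.backward (Subgroup.connectedComponentOfOne G)
      (Pool.Agent.Helper3.Jord.normal_cc _ hN) (by rw [hN]; exact isClosed_connectedComponent)
      (fun a ha b hb => h a ha b hb) (Pool.Agent.Helper3.Jord.quotient_td _ hN) H hH ((meets_iff H).mp hm)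

private lemma conn_iff : ConnAbByProf G ↔ ∀ a ∈ connectedComponent (1 : G), ∀ b ∈ connectedComponent (1 : G), a * b = b * a := by
  constructor
  · rintro ⟨N, hN, hNc, -, hab, -, -, htd⟩
    rw [← noProper_iff]
    intro H hH hm
    exact Pool.Agent.Helper3.Jord.backward N hN hNc hab htd H hH ((meets_iff H).mp hm)
  · intro h
    have hN : ((Subgroup.connectedComponentOfOne G : Subgroup G) : Set G) = connectedComponent (1 : G) := rfl
    have hcl : IsClosed ((Subgroup.connectedComponentOfOne G : Subgroup G) : Set G) := by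
      rw [hN]; exact isClosed_connectedComponent
    refine ⟨Subgroup.connectedComponentOfOne G, Pool.Agent.Helper3.Jord.normal_cc _ hN, hcl, ?_, ?_, ?_, ?_,
      Pool.Agent.Helper3.Jord.quotient_td _ hN⟩
    · rw [hN]; exact isConnected_connectedComponent
    · intro a ha b hb
      exact h a ha b hb
    · infer_instance
    · have : IsClosed ((Subgroup.connectedComponentOfOne G : Subgroup G) : Set G) := hcl
      infer_instance

omit [CompactSpace G] [T2Space G] in
/-- TIG compact groups: the image under a continuous surjective homomorphism. -/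
private lemma tig_image {Q : Type} [Group Q] [TopologicalSpace Q] [IsTopologicalGroup Q] (h : TIG G) (f : G →* Q) (hf : Continuous f)
    (hs : Function.Surjective f) : TIG Q := by
  rw [tig_iff] at h ⊢
  intro P hP hm
  rw [meets_iff] at hm
  have h1 : P.comap f = ⊤ := by
    apply h _ (hP.preimage hf)
    rw [meets_iff]
    intro g
    obtain ⟨k, hk⟩ := hm (f g)
    obtain ⟨k, rfl⟩ := hs k
    exact ⟨k, by simpa using hk⟩
  rw [eq_top_iff]
  intro q _
  obtain ⟨g, rfl⟩ := hs q
  have : g ∈ P.comap f := by rw [h1]; trivial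
  exact this

omit [T2Space G] in
private lemma tig_ext (N : Subgroup G) [hN : N.Normal] (hc : IsClosed (N : Set G)) (h1 : TIG N) (h2 : TIG (G ⧸ N)) : TIG G := by
  rw [tig_iff] at h1 h2 ⊢
  intro H hH hm
  rw [meets_iff] at hm
  have hT : IsClosed ((H.map (QuotientGroup.mk' N) : Subgroup (G ⧸ N)) : Set (G ⧸ N)) := by
    have : IsClosed ((N : Subgroup G) : Set G) := hc
    have h1 : IsCompact ((H.map (QuotientGroup.mk' N) : Subgroup (G ⧸ N)) : Set (G ⧸ N)) := by
      rw [Subgroup.coe_map]
      exact hH.isCompact.image continuous_quot_mk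
    exact h1.isClosed
  have hq := h2 _ hT (by
    rw [meets_iff]
    intro g
    obtain ⟨g, rfl⟩ := QuotientGroup.mk'_surjective N g
    obtain ⟨k, hk⟩ := hm g
    exact ⟨QuotientGroup.mk' N k, k * g * k⁻¹, hk, by simp⟩)
  have hdec : ∀ g : G, ∃ x ∈ H, ∃ n ∈ N, g = x * n := by
    intro g
    have : QuotientGroup.mk' N g ∈ H.map (QuotientGroup.mk' N) := by rw [hq]; trivial
    obtain ⟨x, hx, hxg⟩ := this
    exact ⟨x, hx, x⁻¹ * g, QuotientGroup.eq.mp hxg, by group⟩
  have hNH : H.subgroupOf N = ⊤ := by
    apply h1 _ (hH.preimage continuous_subtype_val)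
    rw [meets_iff]
    intro n
    obtain ⟨k, hk⟩ := hm n
    obtain ⟨x, hx, m, hm, rfl⟩ := hdec k
    refine ⟨⟨m, hm⟩, ?_⟩
    rw [Subgroup.mem_subgroupOf]
    have h5 := H.mul_mem (H.mul_mem (H.inv_mem hx) hk) hx
    have h6 : x⁻¹ * (x * m * n * (x * m)⁻¹) * x = m * n * m⁻¹ := by group
    rw [h6] at h5
    exact h5
  rw [eq_top_iff]
  intro g _
  obtain ⟨x, hx, n, hn, rfl⟩ := hdec g
  refine H.mul_mem hx ?_
  have : (⟨n, hn⟩ : N) ∈ H.subgroupOf N := by rw [hNH]; trivial
  exact this

private lemma tig_closed (h : TIG G) (H : Subgroup G) (hH : IsClosed (H : Set G)) : TIG H := by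
  rw [tig_iff, noProper_iff] at h
  have : CompactSpace H := isCompact_iff_compactSpace.mp hH.isCompact
  rw [tig_iff, noProper_iff]
  intro a ha b hb
  have hsub : Subtype.val '' connectedComponent (1 : H) ⊆ connectedComponent (1 : G) := by
    apply IsConnected.subset_connectedComponent
    · exact isConnected_connectedComponent.image _ continuous_subtype_val.continuousOn
    · exact ⟨1, mem_connectedComponent, rfl⟩
  have := h a (hsub ⟨a, ha, rfl⟩) b (hsub ⟨b, hb, rfl⟩)
  exact Subtype.ext this

end main

private lemma tig_pi {I : Type} (G : I → Type) [∀ i, Group (G i)] [∀ i, TopologicalSpace (G i)] [∀ i, IsTopologicalGroup (G i)]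
    [∀ i, CompactSpace (G i)] [∀ i, T2Space (G i)] (h : ∀ i, TIG (G i)) : TIG (∀ i, G i) := by
  rw [tig_iff, noProper_iff]
  intro a ha b hb
  funext i
  have hi := h i
  rw [tig_iff, noProper_iff] at hi
  have hsub : (fun x : ∀ i, G i => x i) '' connectedComponent (1 : ∀ i, G i) ⊆ connectedComponent (1 : G i) := by
    apply IsConnected.subset_connectedComponent
    · exact isConnected_connectedComponent.image _ (continuous_apply i).continuousOn
    · exact ⟨1, mem_connectedComponent, rfl⟩
  exact hi (a i) (hsub ⟨a, ha, rfl⟩) (b i) (hsub ⟨b, hb, rfl⟩)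

/-- For a compact Hausdorff group, finite or infinite: topological invariable generation, the absence of proper closed subgroups that meet every
conjugacy class, commutativity of the identity component, and the structure (connected abelian)-by-profinite are equivalent. The class of these
groups is closed under closed subgroups, continuous Hausdorff images, products and extensions. -/
theorem result :
    (∀ (G : Type) [Group G] [TopologicalSpace G] [IsTopologicalGroup G] [CompactSpace G] [T2Space G],
      (TIG G ↔ ConnAbByProf G) ∧ (TIG G ↔ NoProperClosed G) ∧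
      (TIG G ↔ ∀ a ∈ connectedComponent (1 : G), ∀ b ∈ connectedComponent (1 : G), a * b = b * a) ∧
      (TIG G → ∀ H : Subgroup G, IsClosed (H : Set G) → TIG H) ∧
      (TIG G → ∀ (Q : Type) [Group Q] [TopologicalSpace Q] [IsTopologicalGroup Q] (f : G →* Q), Continuous f → Function.Surjective f → TIG Q) ∧
      (∀ (N : Subgroup G) [N.Normal], IsClosed (N : Set G) → TIG N → TIG (G ⧸ N) → TIG G)) ∧
    (∀ (I : Type) (G : I → Type) [∀ i, Group (G i)] [∀ i, TopologicalSpace (G i)] [∀ i, IsTopologicalGroup (G i)]
      [∀ i, CompactSpace (G i)] [∀ i, T2Space (G i)], (∀ i, TIG (G i)) → TIG (∀ i, G i)) := by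
  refine ⟨?_, fun I G _ _ _ _ _ h => tig_pi G h⟩
  intro G _ _ _ _ _
  refine ⟨tig_iff.trans (noProper_iff.trans conn_iff.symm), tig_iff, tig_iff.trans noProper_iff, fun h H hH => tig_closed h H hH,
    fun h Q _ _ _ f hf hs => tig_image h f hf hs, fun N _ hc h1 h2 => tig_ext N hc h1 h2⟩

end Pool.Agent.Results.MP_f8d790_al.AllCompactGroups
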